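import Mathlib
import Pool.Agent.H.MP_a7957c_al.Core
import Pool.Agent.H.MP_a7957c_al.Frozen

/-! The full box spaces of free groups of different ranks are never coarsely equivalent. -/

set_option autoImplicit false

namespace Pool.Agent.Results.MP_a7957c_al.NotCoarselyEquivalent

open Filter NNReal

/-- Finite index normal subgroups of the free group of rank `k`. -/
abbrev FIN (k : ℕ) : Type := {N : Subgroup (FreeGroup (Fin k)) // N.Normal ∧ N.FiniteIndex}

instance instNormal {k : ℕ} (N : FIN k) : N.1.Normal := N.2.1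

/-- The underlying set of the full box space: the disjoint union of all `F_k ⧸ N`. -/
abbrev Box (k : ℕ) : Type := Σ N : FIN k, FreeGroup (Fin k) ⧸ N.1

/-- The word metric of `F_k ⧸ N` with respect to the image of the free basis: the least length of
an element of `F_k` that represents `x⁻¹ * y`. -/
noncomputable def wordDist {k : ℕ} (N : FIN k) (x y : FreeGroup (Fin k) ⧸ N.1) : ℕ :=
  sInf {r : ℕ | ∃ g : FreeGroup (Fin k),
    (QuotientGroup.mk g : FreeGroup (Fin k) ⧸ N.1) = x⁻¹ * y ∧ g.norm = r}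

/-- A metric of a full box space: it restricts to the word metric on every piece, and for every `R`
only finitely many pairs of distinct pieces are at distance `≤ R`. -/
structure IsBoxMetric (k : ℕ) (M : MetricSpace (Box k)) : Prop where
  word : ∀ (N : FIN k) (x y : FreeGroup (Fin k) ⧸ N.1), M.dist ⟨N, x⟩ ⟨N, y⟩ = wordDist N x y
  far : ∀ R : ℝ, {P : FIN k × FIN k | P.1 ≠ P.2 ∧
    ∃ (x : FreeGroup (Fin k) ⧸ P.1.1) (y : FreeGroup (Fin k) ⧸ P.2.1),
      M.dist ⟨P.1, x⟩ ⟨P.2, y⟩ ≤ R}.Finite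

/-- Coarse equivalences between metric spaces. -/
def IsCoarseEquiv {X Y : Type} (MX : MetricSpace X) (MY : MetricSpace Y) (f : X → Y) : Prop :=
  (∃ ρm ρp : ℝ≥0 → ℝ≥0, Monotone ρm ∧ Monotone ρp ∧ Tendsto ρm atTop atTop ∧
    ∀ x x' : X, ρm (nndist x x') ≤ nndist (f x) (f x') ∧ nndist (f x) (f x') ≤ ρp (nndist x x')) ∧
  ∃ C : ℝ, ∀ y : Y, ∃ x : X, dist (f x) y ≤ C

open Pool.Agent.H.MP_a7957c_al

theorem wordDist_le_iff {k : ℕ} (N : FIN k) (a b : FreeGroup (Fin k)) (R : ℕ) :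
    wordDist N (QuotientGroup.mk a) (QuotientGroup.mk b) ≤ R ↔
      ∃ g : FreeGroup (Fin k), g.norm ≤ R ∧ g⁻¹ * a⁻¹ * b ∈ N.1 := by
  have hmem : ∀ g : FreeGroup (Fin k), (QuotientGroup.mk g : FreeGroup (Fin k) ⧸ N.1) =
      (QuotientGroup.mk a)⁻¹ * QuotientGroup.mk b ↔ g⁻¹ * a⁻¹ * b ∈ N.1 := by
    intro g
    rw [← QuotientGroup.mk_inv, ← QuotientGroup.mk_mul, QuotientGroup.eq, mul_assoc]
  have hne : {r : ℕ | ∃ g : FreeGroup (Fin k), (QuotientGroup.mk g : FreeGroup (Fin k) ⧸ N.1) =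
      (QuotientGroup.mk a)⁻¹ * QuotientGroup.mk b ∧ g.norm = r}.Nonempty :=
    ⟨_, a⁻¹ * b, rfl, rfl⟩
  constructor
  · intro h
    obtain ⟨g, hg, hr⟩ := Nat.sInf_mem hne
    exact ⟨g, le_trans (le_of_eq hr) h, (hmem g).mp hg⟩
  · rintro ⟨g, hg, hm⟩
    exact le_trans (Nat.sInf_le ⟨g, (hmem g).mpr hm, rfl⟩) hg

/-! ### Box metrics exist (not used in `result`; it shows that the hypotheses can be satisfied) -/

/-- word norm of the class of `g` in `F ⧸ N`. -/
noncomputable def wl {k : ℕ} (N : FIN k) (g : FreeGroup (Fin k)) : ℕ :=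
  wordDist N (QuotientGroup.mk 1) (QuotientGroup.mk g)

theorem wl_le_iff {k : ℕ} (N : FIN k) (g : FreeGroup (Fin k)) (R : ℕ) :
    wl N g ≤ R ↔ ∃ u : FreeGroup (Fin k), u.norm ≤ R ∧ u⁻¹ * g ∈ N.1 := by
  unfold wl
  rw [wordDist_le_iff]
  simp

theorem wordDist_mk {k : ℕ} (N : FIN k) (a b : FreeGroup (Fin k)) :
    wordDist N (QuotientGroup.mk a) (QuotientGroup.mk b) = wl N (a⁻¹ * b) := by
  apply le_antisymm
  · rw [wordDist_le_iff]
    obtain ⟨u, hu, hm⟩ := (wl_le_iff N (a⁻¹ * b) _).mp le_rfl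
    exact ⟨u, hu, by rwa [mul_assoc]⟩
  · rw [wl_le_iff]
    obtain ⟨u, hu, hm⟩ := (wordDist_le_iff N a b _).mp le_rfl
    exact ⟨u, hu, by rwa [← mul_assoc]⟩

theorem wl_congr {k : ℕ} (N : FIN k) (g g' : FreeGroup (Fin k))
    (h : (QuotientGroup.mk g : FreeGroup (Fin k) ⧸ N.1) = QuotientGroup.mk g') :
    wl N g = wl N g' := by
  unfold wl
  rw [h]

theorem wl_eq_zero {k : ℕ} (N : FIN k) (g : FreeGroup (Fin k)) : wl N g = 0 ↔ g ∈ N.1 := by
  rw [← Nat.le_zero, wl_le_iff]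
  constructor
  · rintro ⟨u, hu, hm⟩
    have : u = 1 := FreeGroup.norm_eq_zero.mp (Nat.le_zero.mp hu)
    rw [this] at hm
    simpa using hm
  · intro h
    exact ⟨1, by simp, by simpa using h⟩

theorem wl_mul {k : ℕ} (N : FIN k) (g h : FreeGroup (Fin k)) : wl N (g * h) ≤ wl N g + wl N h := by
  obtain ⟨u, hu, hm⟩ := (wl_le_iff N g _).mp le_rfl
  obtain ⟨v, hv, hn⟩ := (wl_le_iff N h _).mp le_rfl
  rw [wl_le_iff]
  refine ⟨u * v, le_trans (FreeGroup.norm_mul_le _ _) (add_le_add hu hv), ?_⟩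
  have h1 : (u * v)⁻¹ * (g * h) = (v⁻¹ * h) * (h⁻¹ * (u⁻¹ * g) * h) := by group
  rw [h1]
  have h2 := N.2.1.conj_mem _ hm h⁻¹
  rw [inv_inv] at h2
  exact N.1.mul_mem hn h2

theorem wl_inv {k : ℕ} (N : FIN k) (g : FreeGroup (Fin k)) : wl N g⁻¹ = wl N g := by
  have key : ∀ g : FreeGroup (Fin k), wl N g⁻¹ ≤ wl N g := by
    intro g
    obtain ⟨u, hu, hm⟩ := (wl_le_iff N g _).mp le_rfl
    rw [wl_le_iff]
    refine ⟨u⁻¹, by rw [FreeGroup.norm_inv_eq]; exact hu, ?_⟩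
    have h1 : (u⁻¹)⁻¹ * g⁻¹ = u * (u⁻¹ * g)⁻¹ * u⁻¹ := by group
    rw [h1]
    exact N.2.1.conj_mem _ (N.1.inv_mem hm) u
  apply le_antisymm (key g)
  have := key g⁻¹
  rwa [inv_inv] at this

noncomputable instance {k : ℕ} (N : FIN k) : Fintype (FreeGroup (Fin k) ⧸ N.1) := by
  have := N.2.2
  exact Fintype.ofFinite _

/-- weight of a piece -/
noncomputable def wt {k : ℕ} (N : FIN k) : ℕ :=
  N.1.index + ∑ x : FreeGroup (Fin k) ⧸ N.1, wl N (Quotient.out x)

theorem wl_le_wt {k : ℕ} (N : FIN k) (g : FreeGroup (Fin k)) : wl N g ≤ wt N := by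
  have h1 : wl N g = wl N (Quotient.out (QuotientGroup.mk g : FreeGroup (Fin k) ⧸ N.1)) := by
    apply wl_congr
    rw [QuotientGroup.out_eq']
  rw [h1]
  unfold wt
  refine le_trans ?_ (Nat.le_add_left _ _)
  exact Finset.single_le_sum (f := fun x : FreeGroup (Fin k) ⧸ N.1 => wl N (Quotient.out x))
    (fun _ _ => Nat.zero_le _) (Finset.mem_univ _)

theorem index_pos {k : ℕ} (N : FIN k) : 1 ≤ N.1.index :=
  Nat.one_le_iff_ne_zero.mpr N.2.2.index_ne_zero

/-- representative -/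
noncomputable def ou {k : ℕ} (p : Box k) : FreeGroup (Fin k) := Quotient.out p.2

theorem mk_ou {k : ℕ} (p : Box k) : (QuotientGroup.mk (ou p) : FreeGroup (Fin k) ⧸ p.1.1) = p.2 :=
  QuotientGroup.out_eq' p.2

/-- natural-number valued distance -/
noncomputable def bd {k : ℕ} (p q : Box k) : ℕ := by
  classical
  exact if p.1 = q.1 then wl p.1 ((ou p)⁻¹ * ou q) else wt p.1 + wt q.1

theorem bd_same {k : ℕ} {p q : Box k} (h : p.1 = q.1) :
    bd p q = wl p.1 ((ou p)⁻¹ * ou q) := if_pos h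

theorem bd_diff {k : ℕ} {p q : Box k} (h : p.1 ≠ q.1) : bd p q = wt p.1 + wt q.1 := if_neg h

theorem bd_self {k : ℕ} (p : Box k) : bd p p = 0 := by
  rw [bd_same rfl, wl_eq_zero, inv_mul_cancel]
  exact p.1.1.one_mem

theorem bd_comm {k : ℕ} (p q : Box k) : bd p q = bd q p := by
  by_cases h : p.1 = q.1
  · rw [bd_same h, bd_same h.symm, ← wl_inv, h]
    congr 1
    group
  · rw [bd_diff h, bd_diff (Ne.symm h), add_comm]

theorem bd_triangle {k : ℕ} (p q r : Box k) : bd p r ≤ bd p q + bd q r := by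
  by_cases h1 : p.1 = q.1
  · by_cases h2 : q.1 = r.1
    · rw [bd_same (h1.trans h2), bd_same h1, bd_same h2, ← h1]
      have := wl_mul p.1 ((ou p)⁻¹ * ou q) ((ou q)⁻¹ * ou r)
      refine le_trans (le_of_eq ?_) this
      congr 1
      group
    · have h3 : p.1 ≠ r.1 := by rw [h1]; exact h2
      rw [bd_diff h3, bd_diff h2, h1]
      omega
  · by_cases h2 : q.1 = r.1
    · have h3 : p.1 ≠ r.1 := by rw [← h2]; exact h1
      rw [bd_diff h3, bd_diff h1, h2]
      omega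
    · by_cases h3 : p.1 = r.1
      · rw [bd_same h3, bd_diff h1]
        have := wl_le_wt p.1 ((ou p)⁻¹ * ou r)
        omega
      · rw [bd_diff h1, bd_diff h2, bd_diff h3]
        omega

theorem bd_eq {k : ℕ} (p q : Box k) (h : bd p q = 0) : p = q := by
  by_cases h1 : p.1 = q.1
  · rw [bd_same h1, wl_eq_zero] at h
    rw [← QuotientGroup.eq, mk_ou] at h
    obtain ⟨N, x⟩ := p
    obtain ⟨N', y⟩ := q
    simp only at h1
    subst h1
    have h2 := mk_ou (⟨N, y⟩ : Box k)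
    simp only at h h2
    rw [h2] at h
    rw [h]
  · rw [bd_diff h1] at h
    have := index_pos p.1
    unfold wt at h
    omega

/-- Box metrics exist. -/
theorem exists_boxMetric (k : ℕ) : ∃ M : MetricSpace (Box k), IsBoxMetric k M := by
  refine ⟨{
    dist := fun p q => (bd p q : ℝ)
    dist_self := fun p => by rw [bd_self]; simp
    dist_comm := fun p q => by rw [bd_comm]
    dist_triangle := fun p q r => by exact_mod_cast bd_triangle p q r
    eq_of_dist_eq_zero := fun {p q} h => bd_eq p q (by exact_mod_cast h) }, ?_, ?_⟩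
  · intro N x y
    have h2 : bd (⟨N, x⟩ : Box k) ⟨N, y⟩ = wordDist N x y := by
      rw [bd_same (p := ⟨N, x⟩) (q := ⟨N, y⟩) rfl, ← wordDist_mk]
      have h3 := mk_ou (⟨N, x⟩ : Box k)
      have h4 := mk_ou (⟨N, y⟩ : Box k)
      simp only at h3 h4 ⊢
      rw [h3, h4]
    have h1 : (bd (⟨N, x⟩ : Box k) ⟨N, y⟩ : ℝ) = wordDist N x y := by rw [h2]
    exact h1
  · intro R
    obtain ⟨R', hR'⟩ := exists_nat_ge R
    refine ((normal_index_le_finite k R').prod (normal_index_le_finite k R')).subset ?_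
    rintro ⟨N, N'⟩ ⟨hne, x, y, hxy⟩
    have h1 : (bd (⟨N, x⟩ : Box k) ⟨N', y⟩ : ℝ) ≤ R := hxy
    rw [bd_diff (p := ⟨N, x⟩) (q := ⟨N', y⟩) hne] at h1
    have h2 : wt N + wt N' ≤ R' := by exact_mod_cast le_trans h1 hR'
    unfold wt at h2
    constructor
    · show N.1.index ≤ R'
      omega
    · show N'.1.index ≤ R'
      omega

/-! ### The theorem -/

/-- projection of pairs to the box space -/
def toBox {k : ℕ} (p : BX k) : Box k := ⟨p.1, QuotientGroup.mk p.2⟩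

/-- section -/
noncomputable def ofBox {k : ℕ} (p : Box k) : BX k := (p.1, Quotient.out p.2)

theorem toBox_ofBox {k : ℕ} (p : Box k) : toBox (ofBox p) = p := by
  obtain ⟨N, x⟩ := p
  unfold toBox ofBox
  simp only
  rw [QuotientGroup.out_eq']

theorem boxClose {k : ℕ} (M : MetricSpace (Box k)) (hM : IsBoxMetric k M) :
    BoxClose k (fun R p q => M.dist (toBox p) (toBox q) ≤ (R : ℝ)) := by
  refine ⟨?_, ?_⟩
  · intro R N a b
    rw [← wordDist_le_iff N a b R]
    have h1 : M.dist (toBox (N, a)) (toBox (N, b)) =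
        wordDist N (QuotientGroup.mk a) (QuotientGroup.mk b) :=
      hM.word N (QuotientGroup.mk a) (QuotientGroup.mk b)
    rw [h1]
    exact Nat.cast_le
  · intro R
    have hfin := hM.far R
    refine ⟨(Prod.fst '' _) ∪ (Prod.snd '' _), (hfin.image Prod.fst).union (hfin.image Prod.snd), ?_⟩
    intro p q hpq hne
    constructor
    · left
      exact ⟨(p.1, q.1), ⟨hne, QuotientGroup.mk p.2, QuotientGroup.mk q.2, hpq⟩, rfl⟩
    · right
      exact ⟨(p.1, q.1), ⟨hne, QuotientGroup.mk p.2, QuotientGroup.mk q.2, hpq⟩, rfl⟩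

/-- a coarse equivalence has a coarse inverse. -/
theorem coarse_inverse {X Y : Type} (MX : MetricSpace X) (MY : MetricSpace Y) (f : X → Y)
    (hf : IsCoarseEquiv MX MY f) : ∃ g : Y → X,
      (∀ R : ℕ, ∃ S : ℕ, ∀ p q : X, dist p q ≤ (R : ℝ) → dist (f p) (f q) ≤ (S : ℝ)) ∧
      (∀ R : ℕ, ∃ S : ℕ, ∀ p q : Y, dist p q ≤ (R : ℝ) → dist (g p) (g q) ≤ (S : ℝ)) ∧
      (∃ C : ℕ, ∀ p : X, dist (g (f p)) p ≤ (C : ℝ)) ∧
      (∃ C : ℕ, ∀ q : Y, dist (f (g q)) q ≤ (C : ℝ)) := by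
  obtain ⟨⟨ρm, ρp, hm, hp, hlim, hρ⟩, C, hC⟩ := hf
  choose g hg using hC
  -- control of preimages
  have hpre : ∀ T : ℝ, ∃ S : ℕ, ∀ x x' : X, dist (f x) (f x') ≤ T → dist x x' ≤ (S : ℝ) := by
    intro T
    have h1 := hlim.eventually_gt_atTop (Real.toNNReal T)
    rw [eventually_atTop] at h1
    obtain ⟨a, ha⟩ := h1
    obtain ⟨S, hS⟩ := exists_nat_ge a
    refine ⟨S, fun x x' hxx => ?_⟩
    by_contra hcon
    push Not at hcon
    have h2 : a ≤ nndist x x' := by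
      rw [← NNReal.coe_le_coe, coe_nndist]
      have : (a : ℝ) ≤ (S : ℝ) := by exact_mod_cast hS
      linarith
    have h3 := ha _ h2
    have h4 := (hρ x x').1
    have h5 : nndist (f x) (f x') ≤ Real.toNNReal T := by
      rw [← NNReal.coe_le_coe, coe_nndist]
      exact le_trans hxx (Real.le_coe_toNNReal T)
    exact absurd (lt_of_lt_of_le h3 (le_trans h4 h5)) (lt_irrefl _)
  refine ⟨g, ?_, ?_, ?_, ?_⟩
  · intro R
    obtain ⟨S, hS⟩ := exists_nat_ge (ρp R : ℝ)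
    refine ⟨S, fun p q hpq => ?_⟩
    have h1 := (hρ p q).2
    have h2 : nndist p q ≤ (R : ℝ≥0) := by
      rw [← NNReal.coe_le_coe, coe_nndist]
      simpa using hpq
    have h3 := le_trans h1 (hp h2)
    rw [← NNReal.coe_le_coe, coe_nndist] at h3
    exact le_trans h3 hS
  · intro R
    obtain ⟨S, hS⟩ := hpre (C + R + C)
    refine ⟨S, fun p q hpq => hS _ _ ?_⟩
    calc dist (f (g p)) (f (g q)) ≤ dist (f (g p)) p + dist p (f (g q)) := dist_triangle _ _ _
      _ ≤ dist (f (g p)) p + (dist p q + dist q (f (g q))) := by gcongr; exact dist_triangle _ _ _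
      _ ≤ C + (R + C) := by
          have h1 := hg p
          have h2 := hg q
          rw [dist_comm q]
          gcongr
      _ = C + R + C := by ring
  · obtain ⟨S, hS⟩ := hpre C
    exact ⟨S, fun p => hS _ _ (hg (f p))⟩
  · obtain ⟨S, hS⟩ := exists_nat_ge C
    exact ⟨S, fun q => le_trans (hg q) hS⟩

/-- The full box spaces of free groups of different ranks are never coarsely equivalent, for any
choice of box metrics (which exist by `exists_boxMetric`). -/
theorem result (n m : ℕ) (hnm : n ≠ m) (MX : MetricSpace (Box n)) (MY : MetricSpace (Box m))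
    (hX : IsBoxMetric n MX) (hY : IsBoxMetric m MY) :
    ¬ ∃ f : Box n → Box m, IsCoarseEquiv MX MY f := by
  rintro ⟨f, hf⟩
  obtain ⟨g, h1, h2, h3, h4⟩ := coarse_inverse MX MY f hf
  let f' : BX n → BX m := fun p => ofBox (f (toBox p))
  let g' : BX m → BX n := fun p => ofBox (g (toBox p))
  have hf' : ∀ p, toBox (f' p) = f (toBox p) := fun p => toBox_ofBox _
  have hg' : ∀ p, toBox (g' p) = g (toBox p) := fun p => toBox_ofBox _
  have k1 : ∀ R : ℕ, ∃ S : ℕ, ∀ p q : BX n, MX.dist (toBox p) (toBox q) ≤ (R : ℝ) →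
      MY.dist (toBox (f' p)) (toBox (f' q)) ≤ (S : ℝ) := by
    intro R
    obtain ⟨S, hS⟩ := h1 R
    refine ⟨S, fun p q hpq => ?_⟩
    rw [hf', hf']
    exact hS _ _ hpq
  have k2 : ∀ R : ℕ, ∃ S : ℕ, ∀ p q : BX m, MY.dist (toBox p) (toBox q) ≤ (R : ℝ) →
      MX.dist (toBox (g' p)) (toBox (g' q)) ≤ (S : ℝ) := by
    intro R
    obtain ⟨S, hS⟩ := h2 R
    refine ⟨S, fun p q hpq => ?_⟩
    rw [hg', hg']
    exact hS _ _ hpq
  have k3 : ∃ C : ℕ, ∀ p : BX n, MX.dist (toBox (g' (f' p))) (toBox p) ≤ (C : ℝ) := by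
    obtain ⟨C, hC⟩ := h3
    refine ⟨C, fun p => ?_⟩
    rw [hg', hf']
    exact hC _
  have k4 : ∃ C : ℕ, ∀ q : BX m, MY.dist (toBox (f' (g' q))) (toBox q) ≤ (C : ℝ) := by
    obtain ⟨C, hC⟩ := h4
    refine ⟨C, fun p => ?_⟩
    rw [hf', hg']
    exact hC _
  rcases lt_or_gt_of_ne hnm with h | h
  · exact core h (boxClose MY hY) (boxClose MX hX) g' f' k2 k1 k4 k3
  · exact core h (boxClose MX hX) (boxClose MY hY) f' g' k1 k2 k3 k4

end Pool.Agent.Results.MP_a7957c_al.NotCoarselyEquivalent
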